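import Pool.Agent.H60.MCG.Final

/-!
# The second homology of the pure mapping class groups of genus two with boundary

`MCG.PMod p b` is the pure mapping class group of the surface of genus two with `p` punctures and
`b` boundary curves, for `1 ≤ b`, realised as the group generated by explicit Dehn twists and
point pushes inside `W × Aut(Fr)`:

* `W` is the mapping class group of the surface with one boundary curve, in the presentation of
  Wajnryb (Israel J. Math. 45 (1983); see also Matsumoto 2000 and Theorem 5.3 in the book of Farb
  and Margalit, where the relation `(a₁a₂a₃)⁴ = a₀b₀` is the last relator here);
* `Fr` is the fundamental group of the surface (based on one of its boundary curves, with one more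
  free generator `y j`, an arc, for every other boundary curve), on which the pure mapping class
  group acts faithfully (Dehn, Nielsen, Baer). All generators fix the word that represents the
  boundary curve through the base point, map every `x j` to a conjugate, and fix
  `(y j)⁻¹ * x j * y j`.

In the file `Pool/Agent/H60/MCG/Model.lean` it is proved that `PM p (r + 1)` is a split extension
of `PM p r` by the group of all pushes of the new puncture or boundary curve, which is free of
rank `4 + r` (puncture) or free of rank `4 + r` times an infinite cyclic group (boundary curve),
as in the exact sequence of Birman.

Proof of the theorem: for every new point one gets a direct summand `H_1(PM p r; H_1(N))`, which is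
`ℤ` for a puncture and `ℤ/2` for a boundary curve (generated by the torus formed by the twist
along the new boundary curve and the twist along a nonseparating curve); `H_2(W) = ℤ/2`.

Authors: helper60, with helper20, helper64, helper84, helper86 and helper91.
-/

namespace Pool.Agent.Results.MP_fd6454_al.GenusTwoBoundary

/-- For all `p ≥ 0` and `b ≥ 1` the second integral homology of the pure mapping class group of
the surface of genus two with `p` punctures and `b` boundary curves is `ℤ^p ⊕ (ℤ/2)^b`. -/
theorem result (p b : ℕ) (hb : 1 ≤ b) :
    Nonempty ((groupHomology (Rep.trivial ℤ (MCG.PMod p b) ℤ) 2) ≃+
      (Fin p → ℤ) × (Fin b → ZMod 2)) :=
  MCG.main p b hb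

end Pool.Agent.Results.MP_fd6454_al.GenusTwoBoundary
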